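import Pool.Agent.N922.PQ.Stm
import Pool.Agent.H437R2.Man.MWWeak

/-!
# PQ/FINM (helper273, for helper922)

A curve `y ^ 2 = x ^ 3 + A x + B` over a number field `M` all points of which are divisible by two has only
finitely many points: the group is finitely generated (Mordell-Weil, `Pool.Agent.H437R2.Man.MW.pt_fg`, over
the splitting field of the cubic polynomial).
-/

set_option autoImplicit false
set_option linter.all false

open Polynomial WeierstrassCurve WeierstrassCurve.Affine NumberField
open Pool.Agent.TH115.GD
open scoped Classical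

namespace Pool.Agent.N273.PQ

open Pool.Agent.N874.PP (sW)

/-- a finitely generated abelian group with `G = 2 G` is finite -/
theorem finite_of_div {G : Type} [AddCommGroup G] (hfg : AddGroup.FG G)
    (hdiv : ∀ P : G, ∃ Q : G, P = (2 : ℕ) • Q) : Finite G := by
  have hM : Module.Finite ℤ G := Module.Finite.iff_addGroup_fg.2 hfg
  obtain ⟨r, hr1, hr2⟩ := Submodule.exists_sub_one_mem_and_smul_eq_zero_of_fg_of_le_smul
    (Ideal.span {(2 : ℤ)}) (⊤ : Submodule ℤ G) hM.fg_top (by
      intro P _
      obtain ⟨Q, hQ⟩ := hdiv P
      have e : P = (2 : ℤ) • Q := by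
        rw [hQ, ← natCast_zsmul]
        rfl
      rw [e]
      exact Submodule.smul_mem_smul (Ideal.mem_span_singleton_self _) Submodule.mem_top)
  have hr0 : r ≠ 0 := by
    rintro rfl
    rw [Ideal.mem_span_singleton] at hr1
    omega
  refine Module.finite_of_fg_torsion G ?_
  intro P
  exact ⟨⟨r, mem_nonZeroDivisors_of_ne_zero hr0⟩, hr2 P Submodule.mem_top⟩

/-- transport along an equality of curves -/
theorem fg_of_eq {K : Type} [Field K] {W W' : WeierstrassCurve.Affine K}
    (h : W = W') (hW : AddGroup.FG W.Point) : AddGroup.FG W'.Point := by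
  subst h
  exact hW

/-- a subgroup of a finitely generated abelian group -/
theorem fg_of_inj {A B : Type} [AddCommGroup A] [AddCommGroup B] (f : A →+ B)
    (hf : Function.Injective f) (hB : AddGroup.FG B) : AddGroup.FG A := by
  rw [← Module.Finite.iff_addGroup_fg] at hB ⊢
  have : IsNoetherian ℤ B := inferInstance
  exact Module.Finite.of_injective f.toIntLinearMap hf

/-- Mordell-Weil -/
theorem mw (M : Type) [Field M] [NumberField M] (A B : M) (hab : 4 * A ^ 3 + 27 * B ^ 2 ≠ 0) :
    AddGroup.FG (Pt (sW A B) M) := by
  let P : Cubic M := ⟨1, 0, A, B⟩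
  let L : Type := P.toPoly.SplittingField
  have : NumberField L := NumberField.of_module_finite M L
  have ha : P.a ≠ 0 := one_ne_zero
  have hsp : Splits (P.toPoly.map (algebraMap M L)) := SplittingField.splits P.toPoly
  obtain ⟨x, y, z, h3⟩ := (Cubic.splits_iff_roots_eq_three ha).1 hsp
  have hdisc : P.discr ≠ 0 := by
    have h : P.discr = -(4 * A ^ 3 + 27 * B ^ 2) := by
      simp only [Cubic.discr, P]
      ring
    rw [h, neg_ne_zero]
    exact hab
  obtain ⟨hxy, hxz, hyz⟩ := (Cubic.discr_ne_zero_iff_roots_ne ha h3).1 hdisc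
  have hb := Cubic.b_eq_three_roots ha h3
  have hc := Cubic.c_eq_three_roots ha h3
  have hd := Cubic.d_eq_three_roots ha h3
  simp only [P, map_one, map_zero, one_mul] at hb hc hd
  have hK : AddGroup.FG (Pool.Agent.H437R2.Man.MW.crv (-x) (-y) (-z)).toAffine.Point :=
    Pool.Agent.H437R2.Man.MW.pt_fg (fun h => hxy (neg_injective h)) (fun h => hxz (neg_injective h))
      (fun h => hyz (neg_injective h))
  have heq : (Pool.Agent.H437R2.Man.MW.crv (-x) (-y) (-z)).toAffine =
      ((sW A B).baseChange L) := by
    apply WeierstrassCurve.ext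
    · change (0 : L) = algebraMap M L 0
      rw [map_zero]
    · change -x + -y + -z = algebraMap M L 0
      rw [map_zero]
      linear_combination -hb
    · change (0 : L) = algebraMap M L 0
      rw [map_zero]
    · change -x * -y + -x * -z + -y * -z = algebraMap M L A
      linear_combination -hc
    · change -x * -y * -z = algebraMap M L B
      linear_combination -hd
  have hK' : AddGroup.FG ((sW A B).baseChange L).toAffine.Point := fg_of_eq heq hK
  have hinj := WeierstrassCurve.Affine.Point.map_injective (W' := sW A B) (Algebra.ofId M L)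
  exact fg_of_inj _ hinj hK'

theorem finm : Pool.Agent.N922.PQ.S_FINM := by
  intro M _ _ A B hab hdiv
  exact finite_of_div (mw M A B hab) hdiv

end Pool.Agent.N273.PQ
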